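import Pool.Agent.H23.Defin

/-!
A model of all true sharply bounded (universally quantified) statements, with length induction
for sharply bounded formulas, in which the hierarchy of bounded formulas does not collapse.
-/

namespace Pool.Agent.Results.MP_cf4427_lc.BoundedHierarchyStrictInModel

open Pool.Agent.H23 FirstOrder FirstOrder.Language Filter Set

/-- There is a structure `M` for Buss' language such that
(a) every sharply bounded formula true in `ℕ` for all values of its variables is true in `M` for
    all values of its variables (so `M` is a model of BASIC and of every true sentence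
    `∀ x₁ … x_k θ` with `θ` sharply bounded);
(b) `M` satisfies length induction for sharply bounded formulas with parameters;
(c) in `M`, `x ≤ y` implies that `y - x` exists;
(d) for every `n` there are a bounded formula `φ` and parameters `v` such that no `Σ^b_n` formula
    `ψ`, with any parameters `w`, is equivalent to `φ` in `M`. -/
theorem result : ∃ (M : Type) (_ : buss.Structure M),
    (∀ φ : buss.Formula ℕ, IsSharp φ → (∀ v : ℕ → ℕ, φ.Realize v) →
      ∀ v : ℕ → M, φ.Realize v) ∧
    (∀ φ : buss.Formula ℕ, IsSharp φ → ∀ v : ℕ → M,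
      φ.Realize (Function.update v 0 mZero) →
      (∀ x, φ.Realize (Function.update v 0 x) → φ.Realize (Function.update v 0 (mSucc x))) →
      ∀ x, φ.Realize (Function.update v 0 (mLen x))) ∧
    (∀ x y : M, mLe x y → ∃ z, mAdd x z = y) ∧
    (∀ n : ℕ, ∃ φ : buss.Formula ℕ, IsBdd φ ∧ ∃ v : ℕ → M,
      ∀ ψ : buss.Formula ℕ, IsSP true n ψ → ∀ w : ℕ → M,
        ∃ a : M, ¬ (φ.Realize (Function.update v 0 a) ↔ ψ.Realize (Function.update w 0 a))) := by
  obtain ⟨w, hWB, hG⟩ := exists_good_seq
  refine ⟨MM w, inferInstance, fun φ hφ h v => MM_true hφ h v, fun φ hφ v => MM_lind hφ v,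
    MM_sub, fun n => ?_⟩
  obtain ⟨D, hD1, hD2⟩ := exists_diag (n + 1)
  obtain ⟨g0, g1, Rl, hRl1, hRl2⟩ := definable hWB hG (n + 1) Dᶜ hD1
  obtain ⟨φ, hφ1, hφ2⟩ := (hRl1 (k := 0) (fun c _ => c 0) (TF.par 0)).not
  let v : ℕ → MM w := fun i => if i = 1 then eP w else if i = 2 then eB w else
    if i = 3 then eI w else if i = 4 then eU w (fun _ => false) else
    if i = 5 then eU w g0 else eU w g1
  refine ⟨φ, hφ1, v, fun ψ hψ u => ?_⟩
  by_contra hcon
  push Not at hcon
  apply hD2
  have hgood : ∀ a, GoodP (Function.update v 0 a) g0 g1 := fun a =>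
    ⟨rfl, rfl, rfl, rfl, rfl, rfl⟩
  have hφD : ∀ a, Formula.Realize φ (Function.update v 0 a) ↔ rl a ∈ D := by
    intro a
    unfold Formula.Realize
    rw [hφ2]
    beta_reduce
    rw [hRl2 _ (hgood a)]
    simp
  obtain ⟨T, A, hT⟩ := rep w u
  let T' : ℕ → Tr := fun i => if i = 0 then Term.var (Sum.inl 0) else
    (T i).relabel (Sum.map Nat.succ id)
  let g : Cantor → ℕ → Cantor := fun α i => if i = 0 then α else A (i - 1)
  have hg : Continuous g := by
    refine continuous_pi fun i => ?_
    by_cases hi : i = 0
    · simp only [g, hi, if_true]; exact continuous_id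
    · simp only [g, hi, if_false]; exact continuous_const
  have hup := upper hWB hG hψ T' (fun j => j.elim0) g hg
  have hval : ∀ α, (fun i => ME w (T' i) (g α)) = Function.update u 0 (eU w α) := by
    intro α
    funext i
    by_cases hi : i = 0
    · subst hi
      simp only [T', if_true, Function.update_self]
      rfl
    · rw [Function.update_of_ne hi]
      simp only [T', hi, if_false]
      rw [ME_relabel]
      have : g α ∘ Nat.succ = A := by funext j; simp [g]
      rw [this]
      exact Subtype.ext (hT i).symm
  have hset : g ⁻¹' (SF w ψ T' (fun j => j.elim0)) = D := by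
    ext α
    rw [mem_preimage]
    unfold SF
    rw [mem_ofPred_eq, hval]
    have h1 := hcon (eU w α)
    rw [hφD, rl_eU hWB] at h1
    rw [h1]
    unfold Formula.Realize
    exact iff_of_eq (congrArg _ (Subsingleton.elim _ _))
  rw [hset] at hup
  exact hup

end Pool.Agent.Results.MP_cf4427_lc.BoundedHierarchyStrictInModel
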