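import Pool.Agent.PPH.Groups

/-!
# Collapse of the polynomial hierarchy and finite generation of a group
-/

namespace Pool.Agent.Results.MP_cf4427_lc.FiniteGeneration

open Pool.Agent.PPH

/-- The following are equivalent: the polynomial hierarchy collapses; the group `BPH` of all
polynomially bounded bijections of the set of words with graph in the polynomial hierarchy is
finitely generated; the monoid `MPH` of all polynomially bounded functions with graph in the
polynomial hierarchy is finitely generated; for some `m < n` the groups `GLev m` and `GLev n` of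
length preserving permutations with graph in `Σᵖ_(m+1)` and in `Σᵖ_(n+1)` are isomorphic; for
some `m` the group `GLev m` is isomorphic to the group `GPH` of all length preserving permutations
with graph in the polynomial hierarchy. -/
theorem result : List.TFAE [
    PHCollapses,
    BPH.FG,
    MPH.FG,
    ∃ m n, m < n ∧ Nonempty (GLev m ≃* GLev n),
    ∃ m, Nonempty (GLev m ≃* GPH)] := by
  have len : ∀ k, ∀ h ∈ GLev k, ∀ x, (h x).length = x.length := fun _ _ h => h.1
  have len' : ∀ h ∈ GPH, ∀ x, (h x).length = x.length := fun _ h => h.1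
  tfae_have 1 → 2 := by
    intro h
    obtain ⟨K, hK⟩ := phCollapses_iff.1 h
    rw [BPH_eq]
    exact fg_of_coll hK
  tfae_have 2 → 1 := by
    intro h
    rw [BPH_eq] at h
    exact phCollapses_iff.2 (coll_of_fg h)
  tfae_have 1 → 3 := by
    intro h
    obtain ⟨K, hK⟩ := phCollapses_iff.1 h
    rw [MPH_eq]
    exact fg_of_coll' hK
  tfae_have 3 → 1 := by
    intro h
    rw [MPH_eq] at h
    exact phCollapses_iff.2 (coll_of_fg' h)
  tfae_have 1 → 4 := by
    intro h
    obtain ⟨K, hK⟩ := phCollapses_iff.1 h
    refine ⟨K, K + 1, by omega, ⟨MulEquiv.subgroupCongr ?_⟩⟩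
    rw [GLev_eq, GLev_eq]
    exact le_antisymm (GS_mono (by omega)) ((GS_le_GPH _).trans (GPH_le_of_coll hK (by omega)))
  tfae_have 4 → 1 := by
    rintro ⟨m, n, hmn, ⟨Φ⟩⟩
    refine phCollapses_iff.2 ⟨_, coll_of_adv (k := m) (adv_of_iso (H := GLev n) (len n) ?_
      ((MulEquiv.subgroupCongr (GLev_eq m).symm).trans Φ))⟩
    rw [GLev_eq]
    exact GS_mono (by omega)
  tfae_have 1 → 5 := by
    intro h
    obtain ⟨K, hK⟩ := phCollapses_iff.1 h
    refine ⟨K, ⟨MulEquiv.subgroupCongr ?_⟩⟩
    rw [GLev_eq]
    exact le_antisymm (GS_le_GPH _) (GPH_le_of_coll hK (by omega))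
  tfae_have 5 → 1 := by
    rintro ⟨m, ⟨Φ⟩⟩
    exact phCollapses_iff.2 ⟨_, coll_of_adv (k := m) (adv_of_iso (H := GPH) len' (GS_le_GPH _)
      ((MulEquiv.subgroupCongr (GLev_eq m).symm).trans Φ))⟩
  tfae_finish

end Pool.Agent.Results.MP_cf4427_lc.FiniteGeneration
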