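import Pool.Agent.H23R.Pind

/-!
If `T^i_2`, even with all true `∀Σ^b_i` sentences added, proves that the polynomial hierarchy
collapses to some level, or proves `S^{i+1}_2`, then the polynomial hierarchy collapses to
`Σ^p_{i+2}` (`i ≥ 0`).
-/

namespace Pool.Agent.Results.MP_cf4427_lc.ProvableCollapse

open Pool.Agent.H23R Filter Set
open Pool.Agent.H23 (Cantor Sg exists_diag)

/-- `M` is a model of `T^i_2` and of many true sentences:
(a) all `Σ^b_i` and `Π^b_i` formulas valid in `ℕ` are valid in `M` (in particular BASIC);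
(b) more generally, all formulas valid in `ℕ` whose quantifiers have counterexample functions
    bounded by a term and with `Σ^b_{i+1}` graph (`Sk (i + 1)`) are valid in `M`;
(c) `M` satisfies induction for `Σ^b_i` formulas with parameters. -/
def IsModelT (i : ℕ) (M : Str) : Prop :=
  (∀ φ b, IsSP b i φ → (∀ v : ℕ → ℕ, Sat std v φ) → ∀ v, Sat M v φ) ∧
  (∀ φ, Sk (i + 1) φ → (∀ v : ℕ → ℕ, Sat std v φ) → ∀ v, Sat M v φ) ∧
  ∀ φ, IsSP true i φ → ∀ (k : ℕ) (v : ℕ → M.N), Sat M (Function.update v k M.zero) φ →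
    (∀ x : M.N, Sat M (Function.update v k x) φ → Sat M (Function.update v k (M.succ x)) φ) →
    ∀ x : M.N, Sat M (Function.update v k x) φ

/-- `φ(0) ∧ ∀x (φ(⌊x/2⌋) → φ(x)) → ∀x φ(x)` for all `Σ^b_j` formulas `φ` with parameters: with
`j = i + 1`, a model of `T^i_2` satisfying it is a model of `S^{i+1}_2`. -/
def HasPIND (j : ℕ) (M : Str) : Prop :=
  ∀ φ, IsSP true j φ → ∀ (k : ℕ) (v : ℕ → M.N), Sat M (Function.update v k M.zero) φ →
    (∀ x : M.N, Sat M (Function.update v k (M.half x)) φ → Sat M (Function.update v k x) φ) →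
    ∀ x : M.N, Sat M (Function.update v k x) φ

/-- The hierarchy of bounded formulas collapses in `M`, with parameters: for some `n` every subset
of `M` defined by a bounded formula with parameters is defined by a `Σ^b_n` formula with
parameters. -/
def Collapses (M : Str) : Prop :=
  ∃ n : ℕ, ∀ (φ : Fm) (v : ℕ → M.N), ∃ (ψ : Fm) (v' : ℕ → M.N), IsSP true n ψ ∧ ∀ x : M.N,
    (Sat M (Function.update v 0 x) φ ↔ Sat M (Function.update v' 0 x) ψ)

theorem exists_model (i : ℕ) (hPH : ∃ φ : Fm, ∀ ψ : Fm, IsSP true (i + 2) ψ →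
    ¬ ∀ v : ℕ → ℕ, Sat std v φ ↔ Sat std v ψ) : ∃ M : Str,
    IsModelT i M ∧ ¬ HasPIND (i + 1) M ∧ ¬ Collapses M := by
  obtain ⟨Q⟩ := exists_Qd hPH
  obtain ⟨D⟩ := Q.Y.exists_dat
  refine ⟨M D, ⟨fun φ b hφ h v => M_true D (hφ.sk (Nat.lt_succ_self i)) h v,
    fun φ hφ h v => M_true D hφ h v, fun φ hφ k v h0 hs a => ?_⟩, fun hp => ?_, ?_⟩
  · exact M_ind D (hφ.sk (Nat.lt_succ_self i)) ⟨φ, hφ.lt (Nat.lt_succ_self i), fun _ => Iff.rfl⟩
      ⟨φ, hφ.lt (Nat.lt_succ_self i), fun _ => Iff.rfl⟩ k v h0 hs a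
  · obtain ⟨φ, v, a, h1, h2, h3, h4⟩ := no_pind D
    exact h4 (hp φ h1 0 v h2 h3 a)
  rintro ⟨n, hcol⟩
  obtain ⟨E, hE1, hE2⟩ := exists_diag (n + 1)
  obtain ⟨g0, g1, Rl, hRl1, hRl2⟩ := definable D (n + 1) Eᶜ hE1
  obtain ⟨φ, hφ⟩ := (hRl1 (k := 0) (fun e => e.c 0) (TM.par 0)).not
  let v : ℕ → (M D).N := fun i => if i = 2 then eC D else if i = 4 then eB D else
    if i = 6 then eU D (fun _ => false) else if i = 8 then eU D g0 else
    if i = 10 then eU D g1 else eM D
  obtain ⟨ψ, v', hψ, hcon⟩ := hcol φ v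
  apply hE2
  have hφE : ∀ X, Sat (M D) (Function.update v 0 X) φ ↔ rl D X ∈ E := by
    intro X
    rw [hφ]
    have hgood : GoodP D (cx 0 (Function.update v 0 X)).c g0 g1 :=
      ⟨rfl, rfl, rfl, rfl, rfl, rfl⟩
    beta_reduce
    rw [hRl2 _ hgood]
    have : (cx 0 (Function.update v 0 X)).c 0 = X := rfl
    rw [this]
    simp
  obtain ⟨T, A, hv'⟩ := repM D v'
  let T' : ℕ → Tr i := fun j => if j = 0 then vT i 0 else rel Nat.succ (T j)
  let g : Cantor → ℕ → Cantor := fun α j => if j = 0 then α else A (j - 1)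
  have hg : Continuous g := by
    refine continuous_pi fun j => ?_
    by_cases hj : j = 0
    · simp only [g, hj, if_true]; exact continuous_id
    · simp only [g, hj, if_false]; exact continuous_const
  have hgA : ∀ α, g α ∘ Nat.succ = A := by
    intro α; funext j; simp [g]
  have hup := upper D hψ T' g hg
  have hval : ∀ α, (fun j => x1 D (T' j) (g α)) = Function.update v' 0 (eU D α) := by
    intro α
    funext j
    by_cases hj : j = 0
    · subst hj
      simp only [T', if_true, Function.update_self]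
      unfold eU
      rw [x1_eq]
      exact Eventually.of_forall fun s => by
        rw [tv_vT, tv_vT]
        rfl
    · rw [Function.update_of_ne hj, hv']
      simp only [T', hj, if_false]
      rw [x1_rel, hgA]
  have hset : g ⁻¹' (SF D ψ T') = E := by
    ext α
    rw [mem_preimage]
    unfold SF
    rw [mem_ofPred_eq, hval]
    have h1 := hcon (eU D α)
    rw [hφE, rl_eU] at h1
    exact h1.symm
  rw [hset] at hup
  exact hup

/-- For every `i ≥ 0`: if in every model of `T^i_2` and of the true sentences of `IsModelT` the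
scheme of `S^{i+1}_2` holds or the hierarchy of bounded formulas collapses to some level (which may
be any level, and depend on the model), then every bounded formula is equivalent in `ℕ` to a
`Σ^b_{i+2}` formula: the polynomial hierarchy collapses to `Σ^p_{i+2}`. -/
theorem result (i : ℕ) (h : ∀ M : Str, IsModelT i M → HasPIND (i + 1) M ∨ Collapses M) :
    ∀ φ : Fm, ∃ ψ : Fm, IsSP true (i + 2) ψ ∧ ∀ v : ℕ → ℕ, Sat std v φ ↔ Sat std v ψ := by
  by_contra hcon
  push Not at hcon
  obtain ⟨φ, hφ⟩ := hcon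
  obtain ⟨M, h1, h2, h3⟩ := exists_model i ⟨φ, fun ψ hψ hv => by
    obtain ⟨v, hv'⟩ := hφ ψ hψ
    have := hv v
    tauto⟩
  rcases h M h1 with h4 | h4
  · exact h2 h4
  · exact h3 h4

end Pool.Agent.Results.MP_cf4427_lc.ProvableCollapse
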