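import Pool.Agent.H23P.Defin2

/-!
For every prime `p`: a model of `V^0(p)` (two-sorted arithmetic with counting modulo `p`) and of
all true `∀Σ^B_0` sentences, even with additional relations, in which the polynomial hierarchy
(the hierarchy of bounded formulas) does not collapse.
-/

namespace Pool.Agent.Results.MP_cf4427_lc.V0pModelPHStrict

open Pool.Agent.H23P Filter Set
open Pool.Agent.H23 (Cantor Sg exists_diag)

/-- Let `p` be a prime and let `P` be any sequence of relations between numbers and finite sets of
numbers. There is a structure `M` for the two-sorted language of bounded arithmetic with relation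
symbols for the `P_i` such that
(a) every `Σ^B_0(P)` formula true in the standard structure for all values of its variables is
    true in `M` for all values of its variables;
(b) `M` satisfies comprehension for `Σ^B_0` formulas (without the symbols `P_i`) with parameters;
(c) in `M`, for every string `X` and every `b` there is a string coding the numbers modulo `p` of
    elements of `X` below `0, 1, …, b` (the axiom of `V^0(p)`);
(d) `M` satisfies the least number principle for `Σ^B_0(P)` formulas with parameters;
(e) strings of `M` with the same elements are equal;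
(f) for every `n` there are a bounded formula `φ` without the symbols `P_i` and parameters `v, w`
    such that no `Σ^B_n(P)` formula `ψ`, with any parameters `v', w'`, defines in `M` the same set
    of strings as `φ`. -/
theorem result (p : ℕ) (hp : p.Prime) (P : ℕ → List ℕ → List (Finset ℕ) → Prop) : ∃ M : Two,
    (∀ φ, IsSB0 φ → (∀ v w, Sat (std P) v w φ) → ∀ v w, Sat M v w φ) ∧
    (∀ φ, IsSB0 φ → IsPure φ → ∀ (k : ℕ) (v : ℕ → M.N1) (w : ℕ → M.N2) (b : M.N1), ∃ X : M.N2,
      M.le (M.len X) b ∧ ∀ i : M.N1, M.le i b → i ≠ b →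
        (M.mem i X ↔ Sat M (Function.update v k i) w φ)) ∧
    (∀ (X : M.N2) (b : M.N1), ∃ Y : M.N2, CountsMod M p X b Y) ∧
    (∀ φ, IsSB0 φ → ∀ (k : ℕ) (v : ℕ → M.N1) (w : ℕ → M.N2) (a : M.N1),
      Sat M (Function.update v k a) w φ → ∃ b : M.N1, Sat M (Function.update v k b) w φ ∧
        ∀ c : M.N1, Sat M (Function.update v k c) w φ → M.le b c) ∧
    (∀ X Y : M.N2, (∀ i, M.mem i X ↔ M.mem i Y) → X = Y) ∧
    (∀ n : ℕ, ∃ φ, IsPure φ ∧ ∃ (v : ℕ → M.N1) (w : ℕ → M.N2), ∀ ψ, IsSP true n ψ →
      ∀ (v' : ℕ → M.N1) (w' : ℕ → M.N2), ∃ X : M.N2,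
        ¬ (Sat M v (Function.update w 0 X) φ ↔ Sat M v' (Function.update w' 0 X) ψ)) := by
  have : Fact p.Prime := ⟨hp⟩
  obtain ⟨D⟩ := (Y P p).exists_dat
  refine ⟨M D, fun φ hφ h v w => M_true D hφ h v w, fun φ hφ hφ' k v w b => M_comp D hφ hφ' k v w b,
    M_count D, fun φ hφ k v w a ha => M_least D hφ k v w a ha, M_ext D, fun n => ?_⟩
  obtain ⟨E, hE1, hE2⟩ := exists_diag (n + 1)
  obtain ⟨g0, g1, Rl, hRl1, hRl2⟩ := definable D (n + 1) Eᶜ hE1
  obtain ⟨φ, hpure, hφ⟩ := (hRl1 (k := 0) (l := 0) (fun e => e.d 0) (SV.par 0)).not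
  let v : ℕ → (M D).N1 := fun i => if i = 2 then eN D else (M D).len (eU D fun _ => false)
  let w : ℕ → (M D).N2 := fun i => if i = 2 then eU D (fun _ => false) else
    if i = 4 then eU D g0 else eU D g1
  refine ⟨φ, hpure, v, w, fun ψ hψ v' w' => ?_⟩
  by_contra hcon
  push Not at hcon
  apply hE2
  have hφE : ∀ X, Sat (M D) v (Function.update w 0 X) φ ↔ rl D X ∈ E := by
    intro X
    rw [hφ]
    have hgood : GoodP D (cx 0 0 v (Function.update w 0 X)).p g0 g1 :=
      ⟨rfl, rfl, rfl, rfl, rfl⟩
    beta_reduce
    rw [hRl2 _ hgood]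
    have : (cx 0 0 v (Function.update w 0 X)).d 0 = X := rfl
    rw [this]
    simp
  obtain ⟨T, A, hv', hw'⟩ := repM D v' w'
  let T' : ℕ → Tr := fun i => if i = 0 then prT (rel Nat.succ (T 0)) dT else rel Nat.succ (T i)
  let g : Cantor → ℕ → Cantor := fun α i => if i = 0 then α else A (i - 1)
  have hg : Continuous g := by
    refine continuous_pi fun i => ?_
    by_cases hi : i = 0
    · simp only [g, hi, if_true]; exact continuous_id
    · simp only [g, hi, if_false]; exact continuous_const
  have hgA : ∀ α, g α ∘ Nat.succ = A := by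
    intro α; funext j; simp [g]
  have hup := upper D hψ T' g hg
  have hval1 : ∀ α, (fun i => x1 D (T' i) (g α)) = v' := by
    intro α
    rw [hv']
    funext i
    by_cases hi : i = 0
    · subst hi
      simp only [T', if_true]
      rw [x1_prT, x1_rel, hgA]
    · simp only [T', hi, if_false]
      rw [x1_rel, hgA]
  have hval2 : ∀ α, (fun i => x2 D (T' i) (g α)) = Function.update w' 0 (eU D α) := by
    intro α
    funext i
    by_cases hi : i = 0
    · subst hi
      simp only [T', if_true, Function.update_self]
      rfl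
    · rw [Function.update_of_ne hi, hw']
      simp only [T', hi, if_false]
      rw [x2_rel, hgA]
  have hset : g ⁻¹' (SF D ψ T') = E := by
    ext α
    rw [mem_preimage]
    unfold SF
    rw [mem_ofPred_eq, hval1, hval2]
    have h1 := hcon (eU D α)
    rw [hφE, rl_eU] at h1
    exact h1.symm
  rw [hset] at hup
  exact hup

end Pool.Agent.Results.MP_cf4427_lc.V0pModelPHStrict
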